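import Pool.Agent.U536.CF.F
import Pool.Agent.Results.MP_39d40e_nt.MultiplicativeValues

/-!
# Generalised Collatz maps: all trajectories which start near integers with a large common factor with a value of a multiplicative function

Let `f` be a positive multiplicative function of at most polynomial growth such that `f p ≤ M p` for the large primes `p`,
with different values at different large primes; for example Euler's function or the sum of the divisors. Let `G` have
steps bounded below by a positive constant and growth at most `v^D`, for example `α v^D`. Let `b < 1` and `0 ≤ c < 2 b -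
1`. For all `m ≤ N` but `N exp (-(log N)^c)`, for EVERY integer `w ≥ exp ((log N)^b)` with `gcd(w, f(m)) ≥ w^ρ`, EVERY
integer `x` with `||x| - G w| ≤ w ^ κ` has a trajectory under the generalised Collatz map `T(x) = (m_i x - r_i) / d` for
`x ≡ i mod d` which enters `[-|x|^δ, |x|^δ]`, if `gcd(m_i, d) = 1` for all `i`, `∏ |m_i / d| < 1` and some `|m_i| > d`; `δ
> 0`, `0 ≤ κ < ρ ≤ 1`, and `D (1 - C δ) + κ < ρ`, where `C > 0` depends only on `d` and the `m_i` and is larger than `1 -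
log_d (∑ |m_i / d| ^ s)` for every `s ≥ 0`. The integers `w` include all large divisors of `f(m)` and their multiples by
small integers; for Euler's function, the orders of the elements of the group of units modulo `m`.

Proof. Write `m = k u` with `u` squarefree and composed of primes larger than `N^(1/J)`, `J = (log N)^a`, and `k ≤ exp (4
(log N)^a)`; this is possible for all `m ≤ N` but very few. If `v ∣ f(k) f(u)`, then `v = g v'` with `g ∣ f(k)` and `v' ∣
∏ f(p)`, and the number of such `u ≤ N / k` is at most `N / (k v')` times `(log N)^O(J)` times the number `τ_J(v')` of the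
ordered factorizations of `v'` into `J` factors. The inequality `τ_J^q ≤ τ_K` for `K ≥ J^q` and Hölder's inequality bound
the sum over the sparse set of the exceptional `v`. The file `MultiplicativeValues` of the starting library treats the
integers `w = f(m)`, with `N / (log N)^U` exceptions.
-/

set_option autoImplicit false

namespace Pool.Agent.Results.MP_39d40e_nt.CommonFactors

open Finset
open PowerRate (T)
open Pool.Agent.N733.TG (LM Expanding lm_totient lm_sigma expanding_pow)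
open Pool.Agent.U536.CF (Common common_good common_of_dvd common_order)

/-- **Generalised Collatz maps: all trajectories which start near integers with a large common factor with a value of a
multiplicative function.** Let `f` be multiplicative and positive, of at most polynomial growth, with `f p ≤ M p` at the
large primes, and injective there. Let `G` have steps `≥ a > 0` and growth at most `v^D`. Let `b < 1` and `0 ≤ c < 2 b -
1`, `gcd(m_i, d) = 1` for all `i`, `∏ |m_i / d| < 1` and some `|m_i| > d`; `δ > 0`, `0 ≤ κ < ρ ≤ 1`, and `D (1 - C δ) + κ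
< ρ`, where `C > 0` depends only on `d` and the `m_i` and is larger than `1 - log_d (∑ |m_i / d| ^ s)` for every `s ≥ 0`.
For all large `N`, for all `m ≤ N` but `N exp (-(log N)^c)`, for EVERY integer `w ≥ exp ((log N)^b)` with `gcd(w, f(m)) ≥
w^ρ`, EVERY integer `x` with `||x| - G w| ≤ w ^ κ` has a trajectory under the generalised Collatz map `T(x) = (m_i x -
r_i) / d` for `x ≡ i mod d` which enters `[-|x|^δ, |x|^δ]`. All divisors `w ≥ exp ((log N)^b)` of `f(m)` are such integers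
`w`, and for Euler's function the orders `≥ exp ((log N)^b)` of the units modulo `m`. Euler's function and the sum of the
divisors are examples of `f`, and `α v^D` with `α > 0`, `D ≥ 1` is an example of `G`. -/
theorem result :
    (∀ (d : ℕ) (m : ℕ → ℤ), 2 ≤ d → (∀ i < d, IsCoprime (m i) (d : ℤ)) → ∏ i ∈ range d, |(m i : ℝ) / d| < 1 →
      (∃ i < d, (d : ℤ) < |m i|) → ∃ C : ℝ, 0 < C ∧
      (∀ s : ℝ, 0 ≤ s → 1 - Real.log (∑ i ∈ range d, |(m i : ℝ) / d| ^ s) / Real.log d < C) ∧
      ∀ f : ℕ → ℕ, LM f → ∀ (G : ℕ → ℝ) (D : ℝ), Expanding G D → ∀ δ κ ρ b c : ℝ, 0 < δ → 0 ≤ κ → κ < ρ → ρ ≤ 1 →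
      D * (1 - C * δ) + κ < ρ → b < 1 → 0 ≤ c → c < 2 * b - 1 → ∀ r : ℕ → ℤ, (∀ i < d, r i ≡ i * m i [ZMOD d]) →
      ∃ N₀ : ℕ, ∀ N : ℕ, N₀ ≤ N →
      ({k : ℕ | 1 ≤ k ∧ k ≤ N ∧ ¬ ∀ w : ℕ, Common f b ρ N k w → ∀ x : ℤ, |(|(x : ℝ)|) - G w| ≤ (w : ℝ) ^ κ →
        ∃ n : ℕ, |(((T d m r)^[n] x : ℤ) : ℝ)| ≤ |(x : ℝ)| ^ δ}.ncard : ℝ) ≤ N * Real.exp (-(Real.log N ^ c))) ∧
    (LM Nat.totient ∧ LM (fun m => ∑ d ∈ m.divisors, d)) ∧
    (∀ α d : ℝ, 0 < α → 1 ≤ d → Expanding (fun v => α * (v : ℝ) ^ d) d) ∧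
    (∀ (f : ℕ → ℕ) (b ρ : ℝ) (N m w : ℕ), ρ ≤ 1 → Real.exp (Real.log N ^ b) ≤ (w : ℝ) → w ∣ f m → Common f b ρ N m w) ∧
    ∀ (b ρ : ℝ) (N m : ℕ), ρ ≤ 1 → ∀ x : (ZMod m)ˣ, Real.exp (Real.log N ^ b) ≤ (orderOf x : ℝ) →
      Common Nat.totient b ρ N m (orderOf x) := by
  refine ⟨?_, ⟨lm_totient, lm_sigma⟩, fun α d hα hd => expanding_pow hα hd, fun f b ρ N m w hρ hw hd => common_of_dvd hρ hw hd,
    fun b ρ N m hρ x hx => common_order hρ x hx⟩
  intro d m hd hm hL hm2
  obtain ⟨e, he0, he, hr⟩ := PowerRate.result d hd m hm hL hm2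
  refine ⟨e, he0, he, fun f hf G D hG δ κ ρ b c hδ hκ hκ1 hρ h1 hb hc hcb r hadm => ?_⟩
  obtain ⟨C, hC0, hC⟩ := hr r hadm
  have hD := hG.one_le
  have hs1 : D * max (1 - e * δ) 0 + κ < ρ := by
    rcases le_total (1 - e * δ) 0 with h | h
    · rw [max_eq_right h]
      linarith
    · rw [max_eq_left h]
      exact h1
  have key := common_good (fun _ : ℤ => True) (fun x : ℤ => ∃ n : ℕ, |(((T d m r)^[n] x : ℤ) : ℝ)| ≤ |(x : ℝ)| ^ δ)
    (fun x : ℤ => |(x : ℝ)|) hf hG (s := max (1 - e * δ) 0) (κ := κ) (le_max_right _ _) hκ hs1 hρ hb hc hcb (fun ε hε => ?_)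
  · obtain ⟨N₀, hN₀⟩ := key
    refine ⟨N₀, fun N hN => le_trans (le_of_eq ?_) (hN₀ N hN)⟩
    congr 2
    ext k
    simp only [Set.mem_ofPred_eq, true_implies]
  · have hs : 0 < max (1 - e * δ) 0 + ε := by
      have := le_max_right (1 - e * δ) 0
      linarith
    obtain ⟨K, hK0, hK⟩ := Pool.Agent.N578.TG.dyadic
      {x : ℤ | ¬ ∃ n : ℕ, |(((T d m r)^[n] x : ℤ) : ℝ)| ≤ |(x : ℝ)| ^ δ} (C := C * 2 ^ (e * δ)) hs (fun X hX => by
        have hX1 : 1 ≤ X := by linarith
        have hX0 : 0 < X := by linarith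
        have hy1 : 1 ≤ (X / 2) ^ δ := Real.one_le_rpow (by linarith) hδ.le
        have h2 := hC X ((X / 2) ^ δ) hX1 hy1
        have hfin : {x : ℤ | |(x : ℝ)| ≤ X ∧ ∀ n : ℕ, (X / 2) ^ δ < |(((T d m r)^[n] x : ℤ) : ℝ)|}.Finite := by
          apply (Set.finite_Icc (-⌊X⌋) ⌊X⌋).subset
          rintro x ⟨hx, _⟩
          rw [Set.mem_Icc]
          have h1 := abs_le.1 hx
          constructor
          · have : -x ≤ ⌊X⌋ := Int.le_floor.2 (by push_cast; linarith)
            linarith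
          · exact Int.le_floor.2 h1.2
        have hsub : {x : ℤ | x ∈ {x : ℤ | ¬ ∃ n : ℕ, |(((T d m r)^[n] x : ℤ) : ℝ)| ≤ |(x : ℝ)| ^ δ} ∧
            X / 2 < |(x : ℝ)| ∧ |(x : ℝ)| ≤ X} ⊆
            {x : ℤ | |(x : ℝ)| ≤ X ∧ ∀ n : ℕ, (X / 2) ^ δ < |(((T d m r)^[n] x : ℤ) : ℝ)|} := by
          rintro x ⟨g1, g2, g3⟩
          refine ⟨g3, fun n => ?_⟩
          simp only [Set.mem_ofPred_eq] at g1
          push Not at g1
          exact lt_of_le_of_lt (Real.rpow_le_rpow (by linarith) g2.le hδ.le) (g1 n)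
        have h3 : (((X / 2) ^ δ) ^ e) = X ^ (e * δ) / 2 ^ (e * δ) := by
          rw [← Real.rpow_mul (by linarith), mul_comm δ e, Real.div_rpow hX0.le (by norm_num)]
        have h4 : C * X / ((X / 2) ^ δ) ^ e = C * 2 ^ (e * δ) * X ^ (1 - e * δ) := by
          rw [h3, Real.rpow_sub hX0, Real.rpow_one]
          have := Real.rpow_pos_of_pos hX0 (e * δ)
          have h5 : (0 : ℝ) < 2 ^ (e * δ) := by positivity
          field_simp
        calc _ ≤ (Set.ncard {x : ℤ | |(x : ℝ)| ≤ X ∧ ∀ n : ℕ, (X / 2) ^ δ < |(((T d m r)^[n] x : ℤ) : ℝ)|} : ℝ) := by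
              exact_mod_cast Set.ncard_le_ncard hsub hfin
          _ ≤ C * X / ((X / 2) ^ δ) ^ e := h2
          _ = C * 2 ^ (e * δ) * X ^ (1 - e * δ) := h4
          _ ≤ C * 2 ^ (e * δ) * X ^ (max (1 - e * δ) 0 + ε) := by
            apply mul_le_mul_of_nonneg_left _ (by positivity)
            apply Real.rpow_le_rpow_of_exponent_le hX1
            have := le_max_left (1 - e * δ) 0
            linarith)
    refine ⟨K, fun X hX => ?_⟩
    have e : {t : ℤ | (True ∧ ¬ ∃ n : ℕ, |(((T d m r)^[n] t : ℤ) : ℝ)| ≤ |(t : ℝ)| ^ δ) ∧ |(t : ℝ)| ≤ X} =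
        {x : ℤ | x ∈ {x : ℤ | ¬ ∃ n : ℕ, |(((T d m r)^[n] x : ℤ) : ℝ)| ≤ |(x : ℝ)| ^ δ} ∧ |(x : ℝ)| ≤ X} := by
      ext t
      simp only [Set.mem_ofPred_eq, true_and]
    rw [e]
    exact hK X hX

end Pool.Agent.Results.MP_39d40e_nt.CommonFactors
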