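import Pool.Agent.H319R2.LeighBridge
import Pool.Agent.U491.LR.M
import Pool.Agent.U491.LR.P

set_option autoImplicit false

/-!
# Leigh's Markov chain and linear recurrences

Let `T` be a generalised Collatz map modulo `d` and `C` a finite closed communicating class of its Leigh
chain. We study the trajectories which start at the terms of a linear recurrence with last coefficient prime
to `d` (the Fibonacci numbers, and so on).

A sequence of integers is called smooth if, for some step `M`, its `k`-th differences with step `M` are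
divisible by `d ^ (2 k)`, for all `k`. The smooth sequences form a ring, which contains every linear
recurrence with last coefficient prime to `d` and every Newton series `∑ c_j n (n - 1) ... (n - j + 1)`. A
family of sequences is called spread if exponentially small proportions of the classes modulo `d ^ T` contain
exponentially small proportions of the terms. The windows of a smooth sequence are spread if and only if it
is constant on no arithmetic progression, and then it is spread along every spread family of indices (the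
primes, the Fibonacci numbers, ...). The trajectories of almost all terms of spread families follow the law
`Λ_C ^ j |x|`, with a power saving.

Method. A smooth sequence is `p`-adically analytic on residue classes, for all `p ∣ d`; its derivative has few
approximate zeros (a count which is uniform in the degree of the approximating polynomials), and elsewhere
the sequence is nearly injective modulo `d ^ T`. Only `d ^ (T (1 - c))` classes contain elements of `S_C`
with unbalanced trajectories.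
-/

namespace Pool.Agent.Results.MP_39d40e_nt.LinearRecurrences

open Pool.Agent.H319R2.Leigh Pool.Agent.Y927 Filter

/-- For `d ^ j ≤ Y` the term `T^j x` of the trajectory of `x` has absolute value `L ^ j |x|`, up to a
factor between `Y ^ (-ε)` and `Y ^ ε`. -/
def Follows (d : ℕ) (m r : ℤ → ℤ) (L ε Y : ℝ) (x : ℤ) : Prop :=
  ∀ j : ℕ, (d : ℝ) ^ j ≤ Y →
    Y ^ (-ε) * L ^ j * |(x : ℝ)| ≤ |(((T d m r)^[j] x : ℤ) : ℝ)| ∧
    |(((T d m r)^[j] x : ℤ) : ℝ)| ≤ Y ^ ε * L ^ j * |(x : ℝ)|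

/-- The linear recurrence `u (n + k) = c 0 u (n) + ... + c (k - 1) u (n + k - 1)` with `c 0` prime to `d`. -/
def CoprimeRec (d : ℕ) (u : ℕ → ℤ) : Prop :=
  ∃ (k : ℕ) (c : ℕ → ℤ), 1 ≤ k ∧ IsCoprime (c 0) (d : ℤ) ∧
    ∀ n, u (n + k) = ∑ i ∈ Finset.range k, c i * u (n + i)

/-- `u` is smooth: for some step `M ≥ 1`, `d ^ (2 k)` divides all the `k`-th differences of `u` with step
`M`, for every `k`. -/
def Smooth (d : ℕ) (u : ℕ → ℤ) : Prop :=
  ∃ M : ℕ, 1 ≤ M ∧ ∀ k n : ℕ,
    (d : ℤ) ^ (2 * k) ∣ ∑ j ∈ Finset.range (k + 1), (-1) ^ (k - j) * (k.choose j : ℤ) * u (n + j * M)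

/-- `u` is constant on no arithmetic progression. -/
def NoConst (u : ℕ → ℤ) : Prop := ∀ a q : ℕ, 1 ≤ q → ∃ m, u (a + q * m) ≠ u a

/-- `|u n|` grows faster than every power of `n`. -/
def Fast (u : ℕ → ℤ) : Prop := ∀ A : ℝ, ∀ᶠ n : ℕ in atTop, (n : ℝ) ^ A ≤ |(u n : ℝ)|

/-- The family of sequences of integers `x i` is spread modulo the powers of `d` up to the exponent `c`: for
every `η > 0` there are `δ, K > 0` such that, for all `i`, `N ≥ 1` and `d ^ T ≤ N ^ c`, any
`exp (-η T) d ^ T` classes modulo `d ^ T` contain together at most `K exp (-δ T) N` of the integers `x i n`,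
`1 ≤ n ≤ N`. -/
def Spread (d : ℕ) (c : ℝ) {ι : Type} (x : ι → ℕ → ℤ) : Prop :=
  ∀ η : ℝ, 0 < η → ∃ δ K : ℝ, 0 < δ ∧ 0 < K ∧ ∀ (i : ι) (N T : ℕ), 1 ≤ N → (d : ℝ) ^ T ≤ (N : ℝ) ^ c →
    ∀ A : Finset ℤ, (A.card : ℝ) ≤ Real.exp (-(η * T)) * (d : ℝ) ^ T →
      (({n | 1 ≤ n ∧ n ≤ N ∧ ∃ a ∈ A, x i n ≡ a [ZMOD (d : ℤ) ^ T]} : Set ℕ).ncard : ℝ) ≤
        K * Real.exp (-(δ * T)) * N

section

variable {d : ℕ} {m r b : ℤ → ℤ} {e : ℤ → ℕ} {C : Finset (ℤ × ℕ)} {ρ : ℤ × ℕ → ℝ}

theorem lam_pos (D : Data d m r b e) : 0 < Lam d m C ρ := by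
  unfold Lam
  apply Finset.prod_pos
  intro i hi
  rw [Finset.mem_range] at hi
  have h := (gm D).ne i (by positivity) (by exact_mod_cast hi)
  have h2 : ((m (i : ℤ) : ℤ) : ℝ) ≠ 0 := by exact_mod_cast h
  have hd0 : (0 : ℝ) < d := by
    have : 0 < d := by have := D.two_le; omega
    exact_mod_cast this
  positivity

theorem mu_eq (D : Data d m r b e) (hC : Class d m r e C ρ) :
    GP.mu (gm D) C ρ = Real.log (Lam d m C ρ) := (log_Lam D hC).symm

theorem typ_iff (D : Data d m r b e) (hC : Class d m r e C ρ) (ε Y : ℝ) (x : ℤ) :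
    GP.Typ (gm D) (GP.mu (gm D) C ρ) ε Y x ↔ Follows d m r (Lam d m C ρ) ε Y x := by
  unfold GP.Typ Follows
  rw [mu_eq D hC, gm_T]
  have h1 : ∀ j : ℕ, Real.exp (j * Real.log (Lam d m C ρ)) = Lam d m C ρ ^ j := by
    intro j
    rw [Real.exp_nat_mul, Real.exp_log (lam_pos D)]
  simp only [h1]
  exact Iff.rfl

end

theorem ncard_le {N : ℕ} {P : ℕ → Prop} {K : ℝ}
    (h : ∀ A : Finset ℕ, A ⊆ Finset.Icc 1 N → (∀ n ∈ A, P n) → (A.card : ℝ) ≤ K) :
    (({n | 1 ≤ n ∧ n ≤ N ∧ P n} : Set ℕ).ncard : ℝ) ≤ K := by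
  classical
  rw [Pool.Agent.U491.LR.ncard_eq]
  apply h _ (Finset.filter_subset _ _)
  intro n hn
  exact (Finset.mem_filter.1 hn).2

/-- **Main theorem.** Let `T` be a generalised Collatz map modulo `d` and `C` a finite closed communicating
class of its Leigh chain with stationary distribution `ρ`.
(1) Every linear recurrence with last coefficient prime to `d` is smooth, and so is every Newton series
`∑ c_j n (n - 1) ... (n - j + 1)` with integers `c_j`; sums and products of smooth sequences are smooth.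
(2) Let `u` be smooth. The family of its windows `u (X + 1), u (X + 2), ...` is spread up to the exponent `1` if
and only if `u` is constant on no arithmetic progression; then the family `u (e i n)` is spread up to the
exponent `c` for every family `e i` of sequences of natural numbers which is spread up to the exponent `c`.
(3) Let the family `x` be spread up to the exponent `c > 0`. There is `c' > 0` such that for every `ε > 0`
there are `δ, K > 0` with: for all `i` and `N ≥ 1`, for all but at most `K N ^ (1 - δ)` of the `n ≤ N` with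
`x i n ∈ S_C` the trajectory of `x i n` follows the law `Λ ^ j |x i n|` for `c' log_d N` steps. If only the
`n` with `|x i n| ≥ N ^ (c (κ + ε))` are considered, where `κ = max 0 (- log_d Λ)`, one can take `c' = c`.
(4) Let `u` be smooth and grow faster than every power of `n`. For every `ε > 0` there are `δ, K > 0` such that
for all `X ≥ 0` and `N ≥ 1`, for all but at most `K N ^ (1 - δ)` of the `n` in `(X, X + N]` with `u n ∈ S_C`
the trajectory of `u n` follows the law `Λ ^ j |u n|` for `log_d N` steps.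
(5) The Fibonacci numbers are a linear recurrence as in (1), are constant on no arithmetic progression and
grow faster than every power; the primes `Nat.nth Nat.Prime n` are spread up to the exponent `1 / 2`. -/
theorem result (d : ℕ) (m r b : ℤ → ℤ) (e : ℤ → ℕ) (D : Data d m r b e) (C : Finset (ℤ × ℕ))
    (ρ : ℤ × ℕ → ℝ) (hC : Class d m r e C ρ) :
    ((∀ u : ℕ → ℤ, CoprimeRec d u → Smooth d u) ∧
      (∀ c : ℕ → ℤ, Smooth d (fun n => ∑ j ∈ Finset.range (n + 1), c j * (n.descFactorial j : ℤ))) ∧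
      (∀ u v : ℕ → ℤ, Smooth d u → Smooth d v →
        Smooth d (fun n => u n + v n) ∧ Smooth d (fun n => u n * v n))) ∧
    (∀ u : ℕ → ℤ, Smooth d u → (Spread d 1 (fun (X : ℕ) (n : ℕ) => u (X + n)) ↔ NoConst u) ∧
      (NoConst u → ∀ (ι : Type) (c : ℝ) (f : ι → ℕ → ℕ), Spread d c (fun i n => (f i n : ℤ)) →
        Spread d c (fun i n => u (f i n)))) ∧
    (∀ (ι : Type) (x : ι → ℕ → ℤ) (c : ℝ), 0 < c → Spread d c x →
      (∃ c' : ℝ, 0 < c' ∧ ∀ ε : ℝ, 0 < ε → ∃ δ K : ℝ, 0 < δ ∧ 0 < K ∧ ∀ (i : ι) (N : ℕ), 1 ≤ N →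
        (({n | 1 ≤ n ∧ n ≤ N ∧ x i n ∈ S d C ∧
          ¬ Follows d m r (Lam d m C ρ) ε ((N : ℝ) ^ c') (x i n)} : Set ℕ).ncard : ℝ) ≤
            K * (N : ℝ) ^ (1 - δ)) ∧
      (∀ ε : ℝ, 0 < ε → ∃ δ K : ℝ, 0 < δ ∧ 0 < K ∧ ∀ (i : ι) (N : ℕ), 1 ≤ N →
        (({n | 1 ≤ n ∧ n ≤ N ∧ x i n ∈ S d C ∧
          (N : ℝ) ^ (c * (max 0 (-Real.log (Lam d m C ρ) / Real.log d) + ε)) ≤ |(x i n : ℝ)| ∧
          ¬ Follows d m r (Lam d m C ρ) ε ((N : ℝ) ^ c) (x i n)} : Set ℕ).ncard : ℝ) ≤
            K * (N : ℝ) ^ (1 - δ))) ∧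
    (∀ u : ℕ → ℤ, Smooth d u → Fast u → ∀ ε : ℝ, 0 < ε → ∃ δ K : ℝ, 0 < δ ∧ 0 < K ∧
      ∀ X N : ℕ, 1 ≤ N → (({n | 1 ≤ n ∧ n ≤ N ∧ u (X + n) ∈ S d C ∧
        ¬ Follows d m r (Lam d m C ρ) ε N (u (X + n))} : Set ℕ).ncard : ℝ) ≤ K * (N : ℝ) ^ (1 - δ)) ∧
    (CoprimeRec d (fun n => (Nat.fib n : ℤ)) ∧ NoConst (fun n => (Nat.fib n : ℤ)) ∧
      Fast (fun n => (Nat.fib n : ℤ)) ∧
      Spread d (1 / 2) (fun (_ : Unit) (n : ℕ) => ((Nat.nth Nat.Prime n : ℕ) : ℤ))) := by
  classical
  have hd2 := D.two_le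
  have hd0 : 0 < d := by omega
  have hsp : ∀ {ι : Type} {c : ℝ} {x : ι → ℕ → ℤ}, Spread d c x ↔ Pool.Agent.U491.LR.Spr d c x :=
    fun {ι c x} => Pool.Agent.U491.LR.spread_iff (x := x) hd0
  have hf := gm_fac D
  have hcl := gm_cls D hC
  refine ⟨⟨fun u hu => Pool.Agent.U491.LR.CoRec.smooth hd2 hu,
      fun c => Pool.Agent.U491.LR.newton_smooth (by omega) c,
      fun u v hu hv => ⟨Pool.Agent.U491.LR.Smooth.add hu hv, Pool.Agent.U491.LR.Smooth.mul hu hv⟩⟩,
    fun u hu => ⟨⟨fun h => ?_, fun h => ?_⟩, fun hne ι c f hfs => ?_⟩, fun ι x c hc hx => ⟨?_, fun ε hε => ?_⟩,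
    fun u hu hfast ε hε => ?_, ?_⟩
  · exact Pool.Agent.U491.LR.noConst_of_spr hd2 one_pos (hsp.1 h)
  · exact hsp.2 (Pool.Agent.U491.LR.Smooth.window hd2 hu h)
  · exact hsp.2 (Pool.Agent.U491.LR.Smooth.comp hd2 hu hne (hsp.1 hfs))
  · obtain ⟨c', hc', h⟩ := Pool.Agent.U491.LR.law_all hf hcl hc (hsp.1 hx)
    refine ⟨c', hc', fun ε hε => ?_⟩
    obtain ⟨δ, K, hδ, hK, h1⟩ := h ε hε
    refine ⟨δ, K, hδ, hK, fun i N hN => ?_⟩
    apply ncard_le (P := fun n => x i n ∈ S d C ∧ ¬ Follows d m r (Lam d m C ρ) ε ((N : ℝ) ^ c') (x i n))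
    intro A hA hbad
    exact h1 i N hN A hA fun n hn => ⟨(hbad n hn).1, fun htyp => (hbad n hn).2 ((typ_iff D hC _ _ _).1 htyp)⟩
  · have hκ : -GP.mu (gm D) C ρ ≤ max 0 (-Real.log (Lam d m C ρ) / Real.log d) * Real.log (gm D).d := by
      have hL0 : 0 < Real.log d := Real.log_pos (by exact_mod_cast (by omega : 1 < d))
      have h1 : -Real.log (Lam d m C ρ) / Real.log d ≤ max 0 (-Real.log (Lam d m C ρ) / Real.log d) :=
        le_max_right _ _
      rw [mu_eq D hC]
      rw [div_le_iff₀ hL0] at h1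
      exact h1
    obtain ⟨δ, K, hδ, hK, h1⟩ := Pool.Agent.U491.LR.law hf hcl hc (hsp.1 hx) (le_max_left _ _) hκ hε
    refine ⟨δ, K, hδ, hK, fun i N hN => ?_⟩
    apply ncard_le (P := fun n => x i n ∈ S d C ∧
          (N : ℝ) ^ (c * (max 0 (-Real.log (Lam d m C ρ) / Real.log d) + ε)) ≤ |(x i n : ℝ)| ∧
          ¬ Follows d m r (Lam d m C ρ) ε ((N : ℝ) ^ c) (x i n))
    intro A hA hbad
    apply h1 i N hN A hA
    intro n hn
    obtain ⟨g1, g2, g3⟩ := hbad n hn
    refine ⟨g1, ?_, fun htyp => g3 ((typ_iff D hC _ _ _).1 htyp)⟩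
    rw [← Real.rpow_mul (Nat.cast_nonneg _)]
    exact g2
  · obtain ⟨δ, K, hδ, hK, h1⟩ := Pool.Agent.U491.LR.law_fast hf hcl
      (Pool.Agent.U491.LR.Smooth.window hd2 hu (Pool.Agent.U491.LR.Fast.noConst hfast)) hfast hε
    refine ⟨δ, K, hδ, hK, fun X N hN => ?_⟩
    apply ncard_le (P := fun n => u (X + n) ∈ S d C ∧ ¬ Follows d m r (Lam d m C ρ) ε N (u (X + n)))
    intro A hA hbad
    exact h1 X N hN A hA fun n hn => ⟨(hbad n hn).1, fun htyp => (hbad n hn).2 ((typ_iff D hC _ _ _).1 htyp)⟩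
  · exact ⟨Pool.Agent.U491.LR.fib_coRec d, Pool.Agent.U491.LR.fib_fast.noConst, Pool.Agent.U491.LR.fib_fast,
      hsp.2 (Pool.Agent.U491.LR.spr_prime hd2)⟩

end Pool.Agent.Results.MP_39d40e_nt.LinearRecurrences
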