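import Pool.Agent.U59.HB.Fin

/-!
# Leigh's maps of coprime type with `Λ < 1`: trajectories are met at low values

`T` of coprime type (`gcd(m_i, d) = 1`) with `∏ |m_i / d| < 1`, not all `|m_i|` equal. Every trajectory is met
above `Y` by at most `C X Y ^ (-c)` of the integers `|x| ≤ X`, uniformly in the trajectory, and the density of
the integers whose trajectory contains `b` is at most `C m ^ (-c)` when `b` is in the trajectory of no integer
of modulus `< m`.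
-/

set_option autoImplicit false

namespace Pool.Agent.Results.MP_39d40e_nt.OrbitsMetLow

open Finset Filter Topology

/-- The generalised Collatz map `T(x) = (m_i x - r_i) / d` for `x ≡ i mod d`, `0 ≤ i < d`. -/
def T (d : ℕ) (m r : ℕ → ℤ) (x : ℤ) : ℤ := (m (x % d).toNat * x - r (x % d).toNat) / d

/-- The exponents: `0 < c < 1` and `∑ |m_i / d| ^ s < d ^ (1 - c)` for some `s ≥ 0`. -/
def Exponent (d : ℕ) (m : ℕ → ℤ) (c : ℝ) : Prop :=
  0 < c ∧ c < 1 ∧ ∃ s : ℝ, 0 ≤ s ∧ ∑ i ∈ range d, |(m i : ℝ) / d| ^ s < (d : ℝ) ^ (1 - c)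

/-- the trajectory of `b` -/
def traj (d : ℕ) (m r : ℕ → ℤ) (b : ℤ) : Set ℤ := {z : ℤ | ∃ n : ℕ, (T d m r)^[n] b = z}

/-- the elements of all cycles -/
def cycles (d : ℕ) (m r : ℕ → ℤ) : Set ℤ := {z : ℤ | ∃ p : ℕ, 1 ≤ p ∧ (T d m r)^[p] z = z}

/-- the trajectory of `x` meets `A` before it takes a value of modulus smaller than `Y` -/
def MeetsAbove (d : ℕ) (m r : ℕ → ℤ) (A : Set ℤ) (Y : ℝ) (x : ℤ) : Prop :=
  ∃ n : ℕ, (T d m r)^[n] x ∈ A ∧ ∀ j ≤ n, Y ≤ |(((T d m r)^[j] x : ℤ) : ℝ)|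

/-- the trajectories of the `x i` have a common element `z` which each of them reaches before it takes a value
of modulus smaller than `Y` -/
def MergeAbove (d : ℕ) (m r : ℕ → ℤ) (Y : ℝ) {ν : ℕ} (x : Fin ν → ℤ) : Prop :=
  ∃ z : ℤ, ∀ i, ∃ n : ℕ, (T d m r)^[n] (x i) = z ∧ ∀ j ≤ n, Y ≤ |(((T d m r)^[j] (x i) : ℤ) : ℝ)|

/-- the number of the integers `x` with `|x| ≤ X` and the property `P` -/
noncomputable def count (X : ℝ) (P : ℤ → Prop) : ℝ := ({x : ℤ | |(x : ℝ)| ≤ X ∧ P x}.ncard : ℝ)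

/-- `S` has natural density `δ` on the side `σ` (`σ = 1`: positive integers, `σ = -1`: negative
integers): `#{x ∈ S : 1 ≤ σ x ≤ N} / N → δ`. -/
def HasDensity (S : Set ℤ) (σ : ℤ) (δ : ℝ) : Prop :=
  Tendsto (fun N : ℕ => (Set.ncard {x : ℤ | x ∈ S ∧ 1 ≤ σ * x ∧ σ * x ≤ N} : ℝ) / N) atTop (𝓝 δ)

/-- the integers whose trajectory contains `b` -/
def Above (d : ℕ) (m r : ℕ → ℤ) (b : ℤ) : Set ℤ := {x : ℤ | b ∈ traj d m r x}

/-- the integers whose trajectory meets the trajectory of `z` -/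
def Joined (d : ℕ) (m r : ℕ → ℤ) (z : ℤ) : Set ℤ := {x : ℤ | (traj d m r x ∩ traj d m r z).Nonempty}

/-- the trajectory of `z` diverges: it is not eventually periodic -/
def Diverges (d : ℕ) (m r : ℕ → ℤ) (z : ℤ) : Prop :=
  ∀ n p : ℕ, 1 ≤ p → (T d m r)^[n + p] z ≠ (T d m r)^[n] z

theorem adm {d : ℕ} (hd : 2 ≤ d) {m r : ℕ → ℤ} (hm : ∀ i < d, IsCoprime (m i) (d : ℤ))
    (hr : ∀ i < d, r i ≡ i * m i [ZMOD d]) (hL : ∏ i ∈ range d, |(m i : ℝ) / d| < 1)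
    (hne : ∃ i < d, ∃ j < d, |m i| ≠ |m j|) : Pool.Agent.H319R3.GC.Adm d m r := by
  obtain ⟨i, hi, j, hj, hij0⟩ := hne
  have hij : (m i).natAbs ≠ (m j).natAbs := by
    intro hcon
    apply hij0
    rw [Int.abs_eq_natAbs, Int.abs_eq_natAbs, hcon]
  have hd0 : (0 : ℝ) < d := by positivity
  have hadm : ∀ i < d, (d : ℤ) ∣ m i * i - r i := by
    intro i hi
    have h1 := (hr i hi).dvd
    rwa [mul_comm (i : ℤ)] at h1
  have hc : ∏ i ∈ range d, (m i).natAbs < d ^ d := by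
    have h1 : ∏ i ∈ range d, |(m i : ℝ) / d| = (∏ i ∈ range d, |(m i : ℝ)|) / (d : ℝ) ^ d := by
      simp only [abs_div, abs_of_pos hd0]
      rw [Finset.prod_div_distrib, Finset.prod_const, card_range]
    rw [h1, div_lt_one (by positivity)] at hL
    have h2 : ((∏ i ∈ range d, (m i).natAbs : ℕ) : ℝ) = ∏ i ∈ range d, |(m i : ℝ)| := by
      push_cast
      refine Finset.prod_congr rfl fun i _ => ?_
      rw [Nat.cast_natAbs]
      push_cast
      rfl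
    have h3 : ((∏ i ∈ range d, (m i).natAbs : ℕ) : ℝ) < ((d ^ d : ℕ) : ℝ) := by
      rw [h2]; push_cast; exact hL
    exact_mod_cast h3
  have hnz : ∀ i ∈ range d, 1 ≤ (m i).natAbs := by
    intro i hi
    rcases Nat.eq_zero_or_pos (m i).natAbs with h0 | h0
    · exfalso
      have h1 := hm i (mem_range.1 hi)
      rw [Int.natAbs_eq_zero.1 h0] at h1
      have h2 := isCoprime_zero_left.1 h1
      have h3 := Int.isUnit_iff.1 h2
      omega
    · exact h0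
  have hbig : 2 ≤ ∏ i ∈ range d, (m i).natAbs := by
    have h1 : 2 ≤ (m i).natAbs ∨ 2 ≤ (m j).natAbs := by
      have h2 := hnz i (mem_range.2 hi)
      have h3 := hnz j (mem_range.2 hj)
      omega
    have h4 : ∀ l < d, (m l).natAbs ≤ ∏ i ∈ range d, (m i).natAbs := by
      intro l hl
      exact Nat.le_of_dvd (Finset.prod_pos fun i hi => hnz i hi)
        (Finset.dvd_prod_of_mem _ (mem_range.2 hl))
    rcases h1 with h1 | h1
    · exact h1.trans (h4 i hi)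
    · exact h1.trans (h4 j hj)
  exact ⟨hd, hm, hadm, hc, hbig⟩

/-- **Theorem.** Let `gcd(m_i, d) = 1` for all `i`, `∏ |m_i / d| < 1` and not all `|m_i|` equal. There are
exponents `c`, and for every exponent `c` and all admissible `r_i`:
(1) for every `ε > 0` there is `C` such that a set `A` with `T A ⊆ A` is met above `Y` by the trajectories of at
most `C X (Y ^ (-c) + #(A ∩ (-Y, Y)) Y ^ (ε - 1))` of the integers `|x| ≤ X`, for all `X, Y ≥ 1`;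
(2) there is `C` such that the trajectory of every `b`, and the union of all cycles, is met above `Y` by at most
`C X Y ^ (-c)` of the integers `|x| ≤ X`;
(3) for every `ε > 0` there is `C` such that at most `(C X) ^ ν (Y ^ (-c ν) + Y ^ ((ε - 1) (ν - 1)))` of the
`ν`-tuples of integers of modulus at most `X` merge above `Y`, for all `ν ≥ 2`;
(4) let `D σ b` be the density on the side `σ` of the integers whose trajectory contains `b`, and `δ σ z` that of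
the integers whose trajectory meets the trajectory of `z`; then `D σ b ≤ C Y ^ (-c)` if `b` is in the trajectory
of no integer of modulus `< Y`, and every `b` with `D σ b ≥ ε` is in the trajectory of an integer `z` with
`|z| ≤ (C / ε) ^ (1 / c)`;
(5) `D σ (T^n z)` increases to `δ σ z`; if `D σ b ≥ ε` for infinitely many `b` then there is a divergent
trajectory which starts at some `|z| ≤ (C / ε) ^ (1 / c)` and has `δ σ z ≥ ε`; and `D σ b → 0` as `|b| → ∞` if and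
only if `δ σ z = 0` for all divergent trajectories. -/
theorem result (d : ℕ) (hd : 2 ≤ d) (m : ℕ → ℤ) (hm : ∀ i < d, IsCoprime (m i) (d : ℤ))
    (hL : ∏ i ∈ range d, |(m i : ℝ) / d| < 1) (hne : ∃ i < d, ∃ j < d, |m i| ≠ |m j|) :
    (∃ c : ℝ, Exponent d m c) ∧
    ∀ c : ℝ, Exponent d m c → ∀ r : ℕ → ℤ, (∀ i < d, r i ≡ i * m i [ZMOD d]) →
      (∀ ε : ℝ, 0 < ε → ∃ C : ℝ, ∀ A : Set ℤ, (∀ x ∈ A, T d m r x ∈ A) → ∀ X Y : ℝ, 1 ≤ X → 1 ≤ Y →
        count X (MeetsAbove d m r A Y) ≤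
          C * X * (Y ^ (-c) + ({y : ℤ | y ∈ A ∧ |(y : ℝ)| < Y}.ncard : ℝ) * Y ^ (ε - 1))) ∧
      (∃ C : ℝ, ∀ X Y : ℝ, 1 ≤ X → 1 ≤ Y →
        (∀ b : ℤ, count X (MeetsAbove d m r (traj d m r b) Y) ≤ C * X * Y ^ (-c)) ∧
        count X (MeetsAbove d m r (cycles d m r) Y) ≤ C * X * Y ^ (-c)) ∧
      (∀ ε : ℝ, 0 < ε → ∃ C : ℝ, ∀ X Y : ℝ, 1 ≤ X → 1 ≤ Y → ∀ ν : ℕ, 2 ≤ ν →
        ({x : Fin ν → ℤ | (∀ i, |(x i : ℝ)| ≤ X) ∧ MergeAbove d m r Y x}.ncard : ℝ) ≤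
          (C * X) ^ ν * ((Y ^ (-c)) ^ ν + (Y ^ (ε - 1)) ^ (ν - 1))) ∧
      ∃ (D δ : ℤ → ℤ → ℝ) (C : ℝ), 0 < C ∧ ∀ σ : ℤ, (σ = 1 ∨ σ = -1) →
        (∀ b, HasDensity (Above d m r b) σ (D σ b)) ∧ (∀ z, HasDensity (Joined d m r z) σ (δ σ z)) ∧
        (∀ (b : ℤ) (Y : ℝ), 1 ≤ Y → (∀ z ∈ Above d m r b, Y ≤ |(z : ℝ)|) → D σ b ≤ C * Y ^ (-c)) ∧
        (∀ (b : ℤ) (ε : ℝ), 0 < ε → ε ≤ D σ b →
          ∃ z ∈ Above d m r b, |(z : ℝ)| ≤ (C / ε) ^ (1 / c)) ∧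
        (∀ z : ℤ, Monotone (fun n => D σ ((T d m r)^[n] z)) ∧
          Tendsto (fun n => D σ ((T d m r)^[n] z)) atTop (𝓝 (δ σ z))) ∧
        (∀ ε : ℝ, 0 < ε → {b : ℤ | ε ≤ D σ b}.Infinite →
          ∃ z : ℤ, |(z : ℝ)| ≤ (C / ε) ^ (1 / c) ∧ Diverges d m r z ∧ ε ≤ δ σ z) ∧
        (Tendsto (D σ) cofinite (𝓝 0) ↔ ∀ z : ℤ, Diverges d m r z → δ σ z = 0) := by
  refine ⟨?_, fun c hc r hr => ?_⟩
  · exact Pool.Agent.U59.HB.exists_Adc (adm hd hm (r := fun i => i * m i)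
      (fun i _ => Int.ModEq.refl _) hL hne)
  have h := adm hd hm hr hL hne
  obtain ⟨i, hi, j, hj, hij0⟩ := hne
  have hij : (m i).natAbs ≠ (m j).natAbs := by
    intro hcon
    apply hij0
    rw [Int.abs_eq_natAbs, Int.abs_eq_natAbs, hcon]
  have hcyc : cycles d m r = Function.periodicPts (Pool.Agent.H319R3.GC.Tm d m r) := by
    ext z
    constructor
    · rintro ⟨p, hp, h1⟩
      exact ⟨p, hp, h1⟩
    · rintro ⟨p, hp, h1⟩
      exact ⟨p, hp, h1⟩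
  refine ⟨fun ε hε => ?_, ?_, fun ε hε => ?_, ?_⟩
  · obtain ⟨s, η, hs, hη0, hηc, hsum, -⟩ := Pool.Agent.U59.HB.Adc.split hd hc
    obtain ⟨C, -, h1⟩ := Pool.Agent.U59.HB.meet_fwd h hs hη0 (by linarith [hc.1]) hsum hc.1
      (by linarith) hε
    exact ⟨C, fun A hA X Y hX hY => h1 A hA X Y hX hY⟩
  · obtain ⟨C, -, h1⟩ := Pool.Agent.U59.HB.meet_orbit h hc
    refine ⟨C, fun X Y hX hY => ⟨fun b => (h1 X Y hX hY).1 b, ?_⟩⟩
    rw [hcyc]
    exact (h1 X Y hX hY).2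
  · obtain ⟨C, -, h1⟩ := Pool.Agent.U59.HB.tuples h hc hε
    exact ⟨C, fun X Y hX hY ν hν => h1 X Y hX hY ν hν⟩
  · obtain ⟨D, δ, C, hC, h1⟩ := Pool.Agent.U59.HB.final h hi hj hij hc
    refine ⟨D, δ, C, hC, fun σ hσ => ?_⟩
    obtain ⟨a1, a2, a3, a4, a5, a6, a7⟩ := h1 σ hσ
    have hJ : ∀ z, Joined d m r z = Pool.Agent.U59.HB.Cls d m r z := by
      intro z
      ext x
      constructor
      · rintro ⟨w, ⟨n, hn⟩, k, hk⟩
        exact ⟨n, k, hn.trans hk.symm⟩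
      · rintro ⟨n, k, hnk⟩
        exact ⟨_, ⟨n, hnk⟩, k, rfl⟩
    exact ⟨a1, fun z => by rw [hJ]; exact a2 z, a3, a4, a5, a6, a7⟩

end Pool.Agent.Results.MP_39d40e_nt.OrbitsMetLow
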