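import Pool.Agent.U762.DZ.All

set_option autoImplicit false

/-!
# Generalized Collatz maps changed at random on a set of density zero

Let `T` be a generalized Collatz map of relatively prime type with positive multipliers and `∏ m_j < d^d` (that is
`Λ < 1`; for instance the 3x+1 map).  The map is fixed.  Its values are changed on a random set of density zero: to the
value at `x` an integer `ω x` is added, the `ω x` are independent, `ω x = 0` with probability
`1 - min(1, A / log (2 + |x|))`, otherwise `ω x` is uniform on `{0, …, N - 1}`, `N = ⌈(2 + |x|)^δ⌉`.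

For every `0 < δ ≤ 1/32` and all large `A` almost surely ALL trajectories of the changed map `x ↦ T x + ω x` are
finite, so they cycle; and at most `C X / log X` of the values `T x`, `|x| ≤ X`, are changed.

The changes are made once for all, so the changed map is a map of the integers, and there is no averaging over
starting values.  Proof: the potential `log |x|` decreases by a constant factor under `κ log |x|` steps of the annealed
chain.  Indeed a change equidistributes the next `κ log |x|` residues modulo `d`, and a trajectory meets, on each scale, a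
bounded number (proportional to `A`) of changes; so the worst growth between the changes is compensated, if `A` is
large.  The true trajectories are compared with the chain up to their first repetition.
-/

namespace Pool.Agent.Results.MP_39d40e_nt.RandomChangesOfDensityZero

open MeasureTheory Filter Finset

/-- The generalized Collatz map: `(m_j x - r_j)/d` for `x ≡ j` modulo `d`. -/
def gen (d : ℕ) (m r : ℤ → ℤ) (x : ℤ) : ℤ := (m (x % d) * x - r (x % d)) / d

/-- The generalized Collatz map is of relatively prime type with positive multipliers: `d ≥ 2`, the `m_j` are positive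
and prime to `d`, and the divisions are exact. -/
structure Coprime (d : ℕ) (m r : ℤ → ℤ) : Prop where
  two_le : 2 ≤ d
  pos : ∀ j : ℤ, 0 ≤ j → j < d → 0 < m j
  cop : ∀ j : ℤ, 0 ≤ j → j < d → IsCoprime (m j) (d : ℤ)
  dvd : ∀ j : ℤ, 0 ≤ j → j < d → (d : ℤ) ∣ m j * j - r j

/-- The 3x+1 map on the integers: `x/2` for even `x`, `(3x+1)/2` for odd `x`. -/
def col (x : ℤ) : ℤ := if x % 2 = 0 then x / 2 else (3 * x + 1) / 2

/-- The map `S` changed by `ω`. -/
def changed (S ω : ℤ → ℤ) (x : ℤ) : ℤ := S x + ω x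

/-- The trajectory of `x` under the changed map, as a set. -/
def orbit (S ω : ℤ → ℤ) (x : ℤ) : Set ℤ := Set.range fun i : ℕ => (changed S ω)^[i] x

/-- The law `0` with probability `1 - ε`, otherwise uniform on `{0, …, N - 1}`. -/
noncomputable def rare (ε : ℝ) (N : ℕ) : Measure ℤ :=
  ENNReal.ofReal (1 - ε) • Measure.dirac (0 : ℤ) +
    ∑ u ∈ range N, ENNReal.ofReal (ε / N) • Measure.dirac (u : ℤ)

/-- The law of the change at `x`: `0` with probability `1 - min(1, A / log (2 + |x|))`, otherwise uniform on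
`{0, …, N - 1}`, `N = ⌈(2 + |x|)^δ⌉`. -/
noncomputable def law (A δ : ℝ) (x : ℤ) : Measure ℤ :=
  rare (min 1 (A / Real.log (2 + |(x : ℝ)|))) ⌈(2 + |(x : ℝ)|) ^ δ⌉₊

/-- All trajectories of the changed map are finite (equivalently, they cycle). -/
def AllFinite (S ω : ℤ → ℤ) : Prop := ∀ x : ℤ, (orbit S ω x).Finite

/-- At most `C X / log X` of the values at the `|x| ≤ X` are changed. -/
def FewChanges (ω : ℤ → ℤ) : Prop := ∃ C : ℝ, ∀ X : ℝ, 2 ≤ X →
  ({x : ℤ | |(x : ℝ)| ≤ X ∧ ω x ≠ 0}.ncard : ℝ) ≤ C * X / Real.log X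

theorem result :
    (∀ (d : ℕ) (m r : ℤ → ℤ), Coprime d m r → (∏ j ∈ range d, m (j : ℤ)) < (d : ℤ) ^ d →
      ∀ δ : ℝ, 0 < δ → δ ≤ 1 / 32 → ∃ A₀ : ℝ, 0 < A₀ ∧ ∀ A : ℝ, A₀ ≤ A →
        ∃ _ : ∀ x : ℤ, IsProbabilityMeasure (law A δ x),
          ∀ᵐ ω ∂(Measure.infinitePi (law A δ)), AllFinite (gen d m r) ω ∧ FewChanges ω) ∧
    (∀ δ : ℝ, 0 < δ → δ ≤ 1 / 32 → ∃ A₀ : ℝ, 0 < A₀ ∧ ∀ A : ℝ, A₀ ≤ A →
        ∃ _ : ∀ x : ℤ, IsProbabilityMeasure (law A δ x),
          ∀ᵐ ω ∂(Measure.infinitePi (law A δ)), AllFinite col ω ∧ FewChanges ω) := by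
  have key : ∀ (d : ℕ) (m r : ℤ → ℤ), Coprime d m r → (∏ j ∈ range d, m (j : ℤ)) < (d : ℤ) ^ d →
      ∀ δ : ℝ, 0 < δ → δ ≤ 1 / 32 → ∃ A₀ : ℝ, 0 < A₀ ∧ ∀ A : ℝ, A₀ ≤ A →
        ∃ _ : ∀ x : ℤ, IsProbabilityMeasure (law A δ x),
          ∀ᵐ ω ∂(Measure.infinitePi (law A δ)), AllFinite (gen d m r) ω ∧ FewChanges ω :=
    fun d m r h hm δ h0 h1 => Pool.Agent.U762.DZ.expl d m r ⟨h.two_le, h.pos, h.cop, h.dvd⟩ hm δ h0 h1
  refine ⟨key, fun δ h0 h1 => ?_⟩
  have hr := Pool.Agent.U762.RP.rel_col (q := 3) (by decide)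
  have hk := key 2 (Pool.Agent.U762.RP.mq 3) Pool.Agent.U762.RP.rq ⟨hr.two_le, hr.pos, hr.cop, hr.dvd⟩
    (by rw [Pool.Agent.U762.RP.prod_col]; norm_num) δ h0 h1
  have hc : gen 2 (Pool.Agent.U762.RP.mq 3) Pool.Agent.U762.RP.rq = col := by
    funext x
    exact Pool.Agent.U762.RP.T_col 3 x
  rwa [hc] at hk

end Pool.Agent.Results.MP_39d40e_nt.RandomChangesOfDensityZero
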